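import Pool.Agent.H328_ProdDim.Main

/-!
# The dimension of a product can be far below the sum of the dimensions

For every `K` there are finite posets `P`, `Q` with `dim P ≥ K` and `dim (P × Q) ≤ dim Q + 9`;
`Q` can be chosen without least and greatest element, and also with both.
-/

set_option autoImplicit false

namespace Pool.Agent.Results.MP_fd346d_co.UnboundedDeficit

open Pool.Agent.H328.ProdDim

theorem noBounds {n k : ℕ} (hn : 1 ≤ n) (hk : 1 ≤ k) (φ : LA n k → Fin (k + 1) → Bool) :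
    Nontrivial (Bip (Rel φ)) ∧
      ((¬ ∃ x : Bip (Rel φ), ∀ y, x ≤ y) ∧ (¬ ∃ x : Bip (Rel φ), ∀ y, y ≤ x)) := by
  have : Nontrivial (Fin (k + 1)) := Fin.nontrivial_iff_two_le.2 (by omega)
  have : Nonempty (Fin n) := ⟨⟨0, hn⟩⟩
  obtain ⟨a, a', haa⟩ : ∃ a a' : LA n k, a ≠ a' := exists_pair_ne _
  obtain ⟨b, b', hbb⟩ : ∃ b b' : LB n k, b ≠ b' := exists_pair_ne _
  refine ⟨⟨Bip.lo a, Bip.lo a', fun h => haa ((Bip.lo_le_lo a a').1 (le_of_eq h))⟩, ?_, ?_⟩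
  · rintro ⟨x, hx⟩
    rcases Bip.cases x with ⟨c, rfl⟩ | ⟨c, rfl⟩
    · exact haa (((Bip.lo_le_lo c a).1 (hx _)).symm.trans ((Bip.lo_le_lo c a').1 (hx _)))
    · exact (Bip.up_le_lo c a).1 (hx _)
  · rintro ⟨x, hx⟩
    rcases Bip.cases x with ⟨c, rfl⟩ | ⟨c, rfl⟩
    · exact (Bip.up_le_lo b c).1 (hx _)
    · exact hbb (((Bip.up_le_up b c).1 (hx _)).trans ((Bip.up_le_up b' c).1 (hx _)).symm)

theorem noBoundsStd {P : Type} [PartialOrder P] :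
    Nontrivial (Std (Idx P)) ∧
      ((¬ ∃ x : Std (Idx P), ∀ y, x ≤ y) ∧ (¬ ∃ x : Std (Idx P), ∀ y, y ≤ x)) := by
  have hne : (Sum.inr 0 : Idx P) ≠ Sum.inr 1 := by simp
  refine ⟨⟨Bip.lo (Sum.inr 0), Bip.lo (Sum.inr 1),
    fun h => hne ((Bip.lo_le_lo _ _).1 (le_of_eq h))⟩, ?_, ?_⟩
  · rintro ⟨x, hx⟩
    rcases Bip.cases x with ⟨c, rfl⟩ | ⟨c, rfl⟩
    · exact hne (((Bip.lo_le_lo c _).1 (hx (Bip.lo (Sum.inr 0)))).symm.trans
        ((Bip.lo_le_lo c _).1 (hx (Bip.lo (Sum.inr 1)))))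
    · exact (Bip.up_le_lo c _).1 (hx (Bip.lo (Sum.inr 0)))
  · rintro ⟨x, hx⟩
    rcases Bip.cases x with ⟨c, rfl⟩ | ⟨c, rfl⟩
    · exact (Bip.up_le_lo _ c).1 (hx (Bip.up (Sum.inr 0)))
    · exact hne (((Bip.up_le_up _ c).1 (hx (Bip.up (Sum.inr 0)))).trans
        ((Bip.up_le_up _ c).1 (hx (Bip.up (Sum.inr 1)))).symm)

theorem result : ∀ K : ℕ,
    (∃ (P Q : Type) (_ : PartialOrder P) (_ : PartialOrder Q),
      Finite P ∧ Finite Q ∧ Nontrivial P ∧ Nontrivial Q ∧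
      ((¬ ∃ x : P, ∀ y, x ≤ y) ∧ (¬ ∃ x : P, ∀ y, y ≤ x)) ∧
      ((¬ ∃ x : Q, ∀ y, x ≤ y) ∧ (¬ ∃ x : Q, ∀ y, y ≤ x)) ∧
      K ≤ pdim P ∧ pdim (P × Q) ≤ pdim Q + 9) ∧
    (∃ (P Q : Type) (_ : PartialOrder P) (_ : PartialOrder Q),
      Finite P ∧ Finite Q ∧ Nontrivial P ∧ Nontrivial Q ∧
      ((¬ ∃ x : P, ∀ y, x ≤ y) ∧ (¬ ∃ x : P, ∀ y, y ≤ x)) ∧
      ((∃ x : Q, ∀ y, x ≤ y) ∧ (∃ x : Q, ∀ y, y ≤ x)) ∧
      K ≤ pdim P ∧ pdim (P × Q) ≤ pdim Q + 9) := by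
  classical
  intro K
  obtain ⟨n, φ, hn, hφ, hup⟩ := main (K + 1) (by omega)
  obtain ⟨hP0, hP1⟩ := noBounds hn (by omega) φ
  have hfin : Finite (Bip (Rel φ)) := Finite.of_fintype _
  have hK : K ≤ pdim (Bip (Rel φ)) := by
    refine le_pdim fun a ha => ?_
    by_contra hcon
    exact hφ (ha.mono (by omega))
  let i1 : Fintype (Idx (Bip (Rel φ))) := Fintype.ofFinite _
  refine ⟨⟨Bip (Rel φ), Std (Idx (Bip (Rel φ))), inferInstance, inferInstance, hfin,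
      Finite.of_fintype _, hP0, noBoundsStd.1, hP1, noBoundsStd.2, hK, ?_⟩,
    ⟨Bip (Rel φ), Set (Idx (Bip (Rel φ))), inferInstance, inferInstance, hfin,
      inferInstance, hP0, inferInstance, hP1, ⟨⟨⊥, fun y => bot_le⟩, ⟨⊤, fun y => le_top⟩⟩, hK, ?_⟩⟩
  · have h1 : pdim (Bip (Rel φ) × Std (Idx (Bip (Rel φ)))) ≤ Nat.card (Idx (Bip (Rel φ))) + 9 :=
      pdim_le (hup _ Std.toSet (Std.le_iff idx_three))
    have hfin2 : Finite (Std (Idx (Bip (Rel φ)))) := Finite.of_fintype _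
    have h2 : Nat.card (Idx (Bip (Rel φ))) ≤ pdim (Std (Idx (Bip (Rel φ)))) := by
      refine le_pdim fun c hc => ?_
      rw [Nat.card_eq_fintype_card]
      exact card_le_of_standard (fun i => Bip.lo i) (fun i => Bip.up i)
        (fun i j hij => hij) (fun i hi => hi rfl) hc
    omega
  · have h1 : pdim (Bip (Rel φ) × Set (Idx (Bip (Rel φ)))) ≤ Nat.card (Idx (Bip (Rel φ))) + 9 :=
      pdim_le (hup _ id (fun e e' => Iff.rfl))
    have h2 : Nat.card (Idx (Bip (Rel φ))) ≤ pdim (Set (Idx (Bip (Rel φ)))) := by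
      refine le_pdim fun c hc => ?_
      rw [Nat.card_eq_fintype_card]
      refine card_le_of_standard (fun i => ({i} : Set (Idx (Bip (Rel φ)))))
        (fun i => ({i}ᶜ : Set (Idx (Bip (Rel φ))))) (fun i j hij => ?_) (fun i hi => ?_) hc
      · intro x hx hx'
        exact hij ((Set.mem_singleton_iff.1 hx).symm.trans (Set.mem_singleton_iff.1 hx'))
      · exact hi (Set.mem_singleton i) (Set.mem_singleton i)
    omega

end Pool.Agent.Results.MP_fd346d_co.UnboundedDeficit
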